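import Mathlib

namespace Pool.Agent.Results.MP_d66889_lc.Yes

abbrev Pat (d : ℕ) (A : Type) := Σ D : Finset (Fin d → ℤ), (D → A)

/-- configurations in which no translate of a pattern of `F` occurs -/
def XF {d : ℕ} {A : Type} (F : Set (Pat d A)) : Set ((Fin d → ℤ) → A) :=
  {x | ∀ q ∈ F, ∀ u : Fin d → ℤ, ¬ ∀ v : q.1, x (u + v) = q.2 v}

def GloballyValid {d : ℕ} {A : Type} (X : Set ((Fin d → ℤ) → A)) (p : Pat d A) : Prop :=
  ∃ x ∈ X, ∀ v : p.1, x v = p.2 v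

def LocallyValid {d : ℕ} {A : Type} (F : Set (Pat d A)) (p : Pat d A) : Prop :=
  ∀ q ∈ F, ∀ (u : Fin d → ℤ) (h : ∀ v ∈ q.1, u + v ∈ p.1),
    ¬ ∀ v : q.1, p.2 ⟨u + v, h v v.2⟩ = q.2 v

def Cvx {d : ℕ} (C : Set (Fin d → ℤ)) : Prop :=
  ∀ v : Fin d → ℤ, (fun i => (v i : ℝ)) ∈
    convexHull ℝ ((fun (w : Fin d → ℤ) (i : Fin d) => (w i : ℝ)) '' C) → v ∈ C

def Ext {d : ℕ} {A : Type} (X : Set ((Fin d → ℤ) → A)) (x : (Fin d → ℤ) → A)
    (D : Set (Fin d → ℤ)) (v : Fin d → ℤ) : Set A :=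
  {a | ∃ z ∈ X, (∀ w ∈ D, z w = x w) ∧ z v = a}

def Avo {d : ℕ} {A : Type} (X : Set ((Fin d → ℤ) → A)) : Prop :=
  ∃ N : Finset (Fin d → ℤ), ∀ C : Set (Fin d → ℤ), C.Finite → Cvx C → ∀ v ∉ C,
    Cvx (insert v C) → ∀ x ∈ X, Ext X x C v = Ext X x (C ∩ {w | w - v ∈ N}) v

theorem peel {d : ℕ} (C : Finset (Fin d → ℤ)) (hne : C.Nonempty)
    (hC : Cvx (C : Set (Fin d → ℤ))) : ∃ v ∈ C, Cvx ((C : Set (Fin d → ℤ)) \ {v}) := by
  let c : (Fin d → ℤ) → (Fin d → ℝ) := fun w i => (w i : ℝ)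
  have hc : Function.Injective c := fun a b h => funext fun i => Int.cast_injective (congrFun h i)
  have hfin : (c '' C).Finite := C.finite_toSet.image c
  obtain ⟨x, hx⟩ := (hfin.isCompact_convexHull ℝ).extremePoints_nonempty
    ((hne.to_set.image c).mono (subset_convexHull ℝ _))
  obtain ⟨v, hv, rfl⟩ := extremePoints_convexHull_subset hx
  refine ⟨v, hv, fun w hw => ⟨hC w (convexHull_mono (Set.image_mono Set.sdiff_subset) hw), ?_⟩⟩
  rintro rfl
  rw [(convex_convexHull ℝ _).mem_extremePoints_iff_mem_sdiff_convexHull_sdiff] at hx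
  refine hx.2 (convexHull_mono ?_ hw)
  rintro _ ⟨z, hz, rfl⟩
  exact ⟨subset_convexHull ℝ _ ⟨z, hz.1, rfl⟩, fun e => hz.2 (hc e)⟩

theorem shift_mem {d : ℕ} {A : Type} {F : Set (Pat d A)} {x : (Fin d → ℤ) → A} (h : x ∈ XF F)
    (u : Fin d → ℤ) : (fun w => x (u + w)) ∈ XF F := fun q hq t ht =>
  h q hq (u + t) fun v => by rw [add_assoc]; exact ht v

theorem result (d : ℕ) (A : Type) [Finite A] (X : Set ((Fin d → ℤ) → A))
    (hX : ∃ F : Set (Pat d A), F.Finite ∧ X = XF F) (hA : Avo X) :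
    ∃ F : Set (Pat d A), F.Finite ∧ X = XF F ∧ ∀ p : Pat d A, Cvx (p.1 : Set (Fin d → ℤ)) →
      LocallyValid F p → GloballyValid X p := by
  classical
  obtain ⟨F0, hF0, hX⟩ := hX
  obtain ⟨N, hN⟩ := hA
  have sh : ∀ x ∈ X, ∀ u, (fun w => x (u + w)) ∈ X := by
    rw [hX]
    exact fun x hx u => shift_mem hx u
  let F1 : Set (Pat d A) := {q | q.1 ⊆ insert 0 N ∧ ¬ GloballyValid X q}
  have hF1 : F1.Finite := by
    have := (Finset.finite_toSet (insert 0 N).powerset).biUnion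
      (t := fun D => Set.range fun p : D → A => (⟨D, p⟩ : Pat d A)) fun D _ => Set.finite_range _
    refine this.subset fun q hq => Set.mem_biUnion (Finset.mem_coe.2 (Finset.mem_powerset.2 hq.1)) ⟨q.2, rfl⟩
  refine ⟨F0 ∪ F1, hF0.union hF1, ?_, ?_⟩
  · ext x
    refine ⟨fun hx q hq u hu => ?_, fun hx => ?_⟩
    · rcases hq with hq | hq
      · exact (hX ▸ hx) q hq u hu
      · exact hq.2 ⟨_, sh x hx u, hu⟩
    · rw [hX]
      exact fun q hq => hx q (Or.inl hq)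
  · rintro ⟨C, p⟩
    induction hn : C.card generalizing C with
    | zero =>
      intro _ hl
      by_contra hne
      obtain rfl := Finset.card_eq_zero.1 hn
      exact hl _ (Or.inr ⟨Finset.empty_subset _, hne⟩) 0 (by simp) (by simp)
    | succ n ih =>
      intro hC hl
      obtain ⟨v, hv, hv'⟩ := peel C (Finset.card_pos.1 (by omega)) hC
      obtain ⟨x, hx, hxp⟩ := ih (C.erase v) (fun w => p ⟨w, Finset.mem_of_mem_erase w.2⟩)
        (by rw [Finset.card_erase_of_mem hv, hn]; rfl) (by simpa using hv')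
        fun q hq u h => hl q hq u fun w hw => Finset.mem_of_mem_erase (h w hw)
      have h1 := hN ((C : Set (Fin d → ℤ)) \ {v}) (C.finite_toSet.subset Set.sdiff_subset) hv' v
        (by simp) (by simpa [Set.insert_eq_of_mem (show v ∈ (C : Set _) from hv)] using hC) x hx
      let D : Finset (Fin d → ℤ) := (insert 0 N).filter fun w => v + w ∈ C
      have hD : ∀ w ∈ D, v + w ∈ C := fun w hw => (Finset.mem_filter.1 hw).2
      have h2 : GloballyValid X ⟨D, fun w => p ⟨v + w, hD w w.2⟩⟩ := by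
        by_contra hne
        exact hl _ (Or.inr ⟨Finset.filter_subset _ _, hne⟩) v hD fun _ => rfl
      obtain ⟨z, hz, hzp⟩ := h2
      have h3 : ∀ w (hw : w ∈ C), w - v ∈ insert 0 N → z (-v + w) = p ⟨w, hw⟩ := by
        intro w hw hw'
        have := hzp ⟨-v + w, Finset.mem_filter.2 ⟨by rwa [neg_add_eq_sub], by simpa using hw⟩⟩
        simpa using this
      have h4 : p ⟨v, hv⟩ ∈ Ext X x ((C : Set (Fin d → ℤ)) \ {v}) v := by
        rw [h1]
        refine ⟨_, sh z hz (-v), fun w hw => ?_, h3 v hv (by simp)⟩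
        rw [hxp ⟨w, Finset.mem_erase.2 ⟨hw.1.2, hw.1.1⟩⟩]
        exact h3 w hw.1.1 (Finset.mem_insert_of_mem hw.2)
      obtain ⟨y, hy, hy1, hy2⟩ := h4
      refine ⟨y, hy, fun w => ?_⟩
      by_cases e : (w : Fin d → ℤ) = v
      · rw [e, hy2]
        congr 1
        exact Subtype.ext e.symm
      · rw [hy1 w ⟨w.2, e⟩]
        exact hxp ⟨w, Finset.mem_erase.2 ⟨e, w.2⟩⟩

end Pool.Agent.Results.MP_d66889_lc.Yes
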